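import Mathlib

/-!
# A continuous kernel operator on a co-sober space whose image is not co-sober
-/

namespace Pool.Agent.Results.MP_1ae613_gt.KernelImage

open Set Topology

/-! ## Definitions -/

/-- `K` is saturated: it is the intersection of the open sets containing it. -/
def Saturated {X : Type} [TopologicalSpace X] (K : Set X) : Prop :=
  K = ⋂₀ {U : Set X | IsOpen U ∧ K ⊆ U}

/-- `up x = {y | x ≤ y}` for the specialization order `x ≤ y ↔ x ∈ closure {y}`. -/
def up {X : Type} [TopologicalSpace X] (x : X) : Set X := {y | x ∈ closure {y}}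

/-- `G` is a nonempty compact saturated set which is not the union of two compact saturated
sets different from `G`. -/
def KIrreducible {X : Type} [TopologicalSpace X] (G : Set X) : Prop :=
  G.Nonempty ∧ IsCompact G ∧ Saturated G ∧
    ∀ K₁ K₂ : Set X, IsCompact K₁ → Saturated K₁ → IsCompact K₂ → Saturated K₂ →
      K₁ ∪ K₂ = G → K₁ = G ∨ K₂ = G

/-- `X` is co-sober: each k-irreducible set is of the form `up x`. -/
def CoSober (X : Type) [TopologicalSpace X] : Prop :=
  ∀ G : Set X, KIrreducible G → ∃ x : X, G = up x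

/-! ## General facts -/

lemma Saturated.mem_of_specializes {X : Type} [TopologicalSpace X] {K : Set X}
    (hK : Saturated K) {x y : X} (hx : x ∈ K) (hxy : x ∈ closure {y}) : y ∈ K := by
  rw [hK]
  rintro U ⟨hU, hKU⟩
  obtain ⟨z, hz1, hz2⟩ := mem_closure_iff.mp hxy U hU (hKU hx)
  rw [mem_singleton_iff] at hz2
  exact hz2 ▸ hz1

lemma saturated_of_upper {X : Type} [TopologicalSpace X] {K : Set X}
    (hK : ∀ x ∈ K, ∀ y, x ∈ closure {y} → y ∈ K) : Saturated K := by
  apply Subset.antisymm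
  · rintro x hx U ⟨_, hKU⟩
    exact hKU hx
  · intro x hx
    by_contra hxK
    have h1 : K ⊆ (closure {x})ᶜ := fun z hz hzx => hxK (hK z hz x hzx)
    exact hx _ ⟨isClosed_closure.isOpen_compl, h1⟩ (subset_closure rfl)

lemma saturated_iff {X : Type} [TopologicalSpace X] {K : Set X} :
    Saturated K ↔ ∀ x ∈ K, ∀ y, x ∈ closure {y} → y ∈ K :=
  ⟨fun h _ hx _ hy => h.mem_of_specializes hx hy, saturated_of_upper⟩

lemma saturated_of_t1 {X : Type} [TopologicalSpace X] [T1Space X] (K : Set X) : Saturated K := by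
  apply saturated_of_upper
  intro x hx y hxy
  rw [closure_singleton, mem_singleton_iff] at hxy
  exact hxy ▸ hx

/-- Co-sobriety is invariant under homeomorphisms. -/
lemma coSober_of_homeomorph {X Z : Type} [TopologicalSpace X] [TopologicalSpace Z] (e : X ≃ₜ Z)
    (hX : CoSober X) : CoSober Z := by
  have hcl : ∀ a b : X, e a ∈ closure {e b} ↔ a ∈ closure {b} := by
    intro a b
    have h1 : closure ({e b} : Set Z) = e '' closure {b} := by
      rw [e.image_closure, image_singleton]
    rw [h1, e.injective.mem_set_image]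
  have hsat : ∀ K : Set Z, Saturated K → Saturated (e ⁻¹' K) := by
    intro K hK
    rw [saturated_iff] at hK ⊢
    intro x hx y hxy
    exact hK (e x) hx (e y) ((hcl x y).mpr hxy)
  have hsat' : ∀ K : Set X, Saturated K → Saturated (e '' K) := by
    intro K hK
    rw [saturated_iff] at hK ⊢
    rintro _ ⟨x, hx, rfl⟩ z hz
    obtain ⟨y, rfl⟩ := e.surjective z
    exact ⟨y, hK x hx y ((hcl x y).mp hz), rfl⟩
  rintro G ⟨hne, hc, hs, hirr⟩
  have hne' : (e ⁻¹' G).Nonempty := by
    obtain ⟨z, hz⟩ := hne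
    exact ⟨e.symm z, by simpa using hz⟩
  have hirr' : ∀ K₁ K₂ : Set X, IsCompact K₁ → Saturated K₁ → IsCompact K₂ → Saturated K₂ →
      K₁ ∪ K₂ = e ⁻¹' G → K₁ = e ⁻¹' G ∨ K₂ = e ⁻¹' G := by
    intro K₁ K₂ hc1 hs1 hc2 hs2 hu
    have h1 : e '' K₁ ∪ e '' K₂ = G := by
      rw [← image_union, hu, image_preimage_eq G e.surjective]
    rcases hirr (e '' K₁) (e '' K₂) (hc1.image e.continuous) (hsat' _ hs1)
      (hc2.image e.continuous) (hsat' _ hs2) h1 with h | h
    · left; rw [← h, preimage_image_eq _ e.injective]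
    · right; rw [← h, preimage_image_eq _ e.injective]
  obtain ⟨x, hx⟩ := hX (e ⁻¹' G) ⟨hne', e.isCompact_preimage.mpr hc, hsat G hs, hirr'⟩
  refine ⟨e x, ?_⟩
  have h1 : G = e '' (e ⁻¹' G) := (image_preimage_eq G e.surjective).symm
  rw [h1, hx]
  ext z
  obtain ⟨y, rfl⟩ := e.surjective z
  rw [e.injective.mem_set_image]
  exact (hcl x y).symm

/-! ## Part A: every `T₁` space is the image of a kernel operator on a co-sober space -/

/-- The set `Y × ℕ`, which gets a topology different from the product topology. -/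
@[ext]
structure XS (Y : Type) : Type where
  /-- first component -/
  fst : Y
  /-- second component -/
  snd : ℕ

variable {Y : Type} [TopologicalSpace Y]

/-- `D y m = {(y, j) | j ≤ m}`. -/
def D (y : Y) (m : ℕ) : Set (XS Y) := {p | p.fst = y ∧ p.snd ≤ m}

/-- The subbase of the topology of `XS Y`. -/
def subbase (Y : Type) [TopologicalSpace Y] : Set (Set (XS Y)) :=
  {U | (∃ V : Set Y, IsOpen V ∧ U = {p | p.fst ∈ V}) ∨ ∃ (y : Y) (m : ℕ), U = (D y m)ᶜ}

instance : TopologicalSpace (XS Y) := TopologicalSpace.generateFrom (subbase Y)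

lemma isOpen_cyl {V : Set Y} (hV : IsOpen V) : IsOpen {p : XS Y | p.fst ∈ V} :=
  TopologicalSpace.isOpen_generateFrom_of_mem (Or.inl ⟨V, hV, rfl⟩)

lemma isClosed_D (y : Y) (m : ℕ) : IsClosed (D y m) := by
  rw [← isOpen_compl_iff]
  exact TopologicalSpace.isOpen_generateFrom_of_mem (Or.inr ⟨y, m, rfl⟩)

lemma D_subset_closure (y : Y) (m : ℕ) : D y m ⊆ closure {(⟨y, m⟩ : XS Y)} := by
  rintro ⟨z, j⟩ ⟨hz, hj⟩
  simp only at hz hj
  subst hz
  -- every open set containing `(z, j)` contains `(z, m)`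
  have key : ∀ U : Set (XS Y), TopologicalSpace.GenerateOpen (subbase Y) U →
      (⟨z, j⟩ : XS Y) ∈ U → (⟨z, m⟩ : XS Y) ∈ U := by
    intro U hU
    induction hU with
    | basic s hs =>
      rcases hs with ⟨V, _, rfl⟩ | ⟨y', m', rfl⟩
      · exact fun h => h
      · intro h h2
        exact h ⟨h2.1, le_trans hj h2.2⟩
    | univ => exact fun _ => mem_univ _
    | inter s t _ _ hs ht => exact fun h => ⟨hs h.1, ht h.2⟩
    | sUnion S _ ih =>
      rintro ⟨s, hs, h⟩
      exact ⟨s, hs, ih s hs h⟩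
  rw [mem_closure_iff]
  intro U hU hjU
  exact ⟨⟨z, m⟩, key U hU hjU, rfl⟩

lemma closure_eq_D (y : Y) (m : ℕ) : closure {(⟨y, m⟩ : XS Y)} = D y m := by
  apply Subset.antisymm
  · apply closure_minimal _ (isClosed_D y m)
    rintro _ rfl
    exact ⟨rfl, le_rfl⟩
  · exact D_subset_closure y m

lemma mem_closure_iff' (p q : XS Y) : p ∈ closure {q} ↔ p.fst = q.fst ∧ p.snd ≤ q.snd := by
  have : closure {q} = D q.fst q.snd := closure_eq_D q.fst q.snd
  rw [this]
  rfl

lemma XS_t0 : T0Space (XS Y) := by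
  constructor
  intro p q hpq
  have h1 := (mem_closure_iff' p q).mp hpq.specializes'.mem_closure
  have h2 := (mem_closure_iff' q p).mp hpq.specializes.mem_closure
  exact XS.ext h1.1 (le_antisymm h1.2 h2.2)

lemma continuous_fst' : Continuous (fun p : XS Y => p.fst) :=
  ⟨fun _ hV => isOpen_cyl hV⟩

/-- A set whose projection is compact is compact. -/
lemma isCompact_of_proj (K : Set (XS Y)) (hK : IsCompact ((fun p : XS Y => p.fst) '' K)) :
    IsCompact K := by
  apply isCompact_generateFrom rfl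
  intro P hP hcov
  by_cases h : ∃ y m, (D y m)ᶜ ∈ P
  · obtain ⟨y, m, hU⟩ := h
    -- the rest of `K` is finite
    have hfin : (K ∩ D y m).Finite := by
      apply Set.Finite.subset (s := (fun j : ℕ => (⟨y, j⟩ : XS Y)) '' Iic m)
        ((finite_Iic m).image _)
      rintro ⟨z, j⟩ ⟨_, hz, hj⟩
      simp only at hz hj
      subst hz
      exact ⟨j, hj, rfl⟩
    have hch : ∀ p ∈ K ∩ D y m, ∃ U ∈ P, p ∈ U := fun p hp => hcov hp.1
    choose! f hf1 hf2 using hch
    refine ⟨insert (D y m)ᶜ (f '' (K ∩ D y m)), ?_, (hfin.image f).insert _, ?_⟩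
    · intro U hU'
      rcases hU' with rfl | ⟨p, hp, rfl⟩
      · exact hU
      · exact hf1 p hp
    · intro p hp
      by_cases hpD : p ∈ D y m
      · exact ⟨f p, Or.inr ⟨p, ⟨hp, hpD⟩, rfl⟩, hf2 p ⟨hp, hpD⟩⟩
      · exact ⟨(D y m)ᶜ, Or.inl rfl, hpD⟩
  · push Not at h
    -- all members of `P` are cylinders
    have hcyl : ∀ U ∈ P, ∃ V : Set Y, IsOpen V ∧ U = {p | p.fst ∈ V} := by
      intro U hU
      rcases hP hU with h1 | ⟨y, m, rfl⟩
      · exact h1
      · exact absurd hU (h y m)
    choose! V hV1 hV2 using hcyl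
    have hc : (fun p : XS Y => p.fst) '' K ⊆ ⋃ U : P, V U.1 := by
      rintro _ ⟨p, hp, rfl⟩
      obtain ⟨U, hU, hpU⟩ := hcov hp
      rw [hV2 U hU] at hpU
      exact mem_iUnion.mpr ⟨⟨U, hU⟩, hpU⟩
    obtain ⟨t, ht⟩ := hK.elim_finite_subcover (fun U : P => V U.1) (fun U => hV1 U.1 U.2) hc
    refine ⟨(fun U : P => U.1) '' (t : Set P), ?_, t.finite_toSet.image _, ?_⟩
    · rintro _ ⟨U, _, rfl⟩
      exact U.2
    · intro p hp
      have h1 := ht ⟨p, hp, rfl⟩
      simp only [mem_iUnion] at h1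
      obtain ⟨U, hU, hpV⟩ := h1
      refine ⟨U.1, ⟨U, hU, rfl⟩, ?_⟩
      rw [hV2 U.1 U.2]
      exact hpV

lemma XS_coSober : CoSober (XS Y) := by
  rintro K ⟨hne, hc, hs, hirr⟩
  rw [saturated_iff] at hs
  obtain ⟨⟨y, n0⟩, hy⟩ := hne
  have hex : ∃ n, (⟨y, n⟩ : XS Y) ∈ K := ⟨n0, hy⟩
  classical
  set n := Nat.find hex with hn
  have hnK : (⟨y, n⟩ : XS Y) ∈ K := Nat.find_spec hex
  have hmin : ∀ j, (⟨y, j⟩ : XS Y) ∈ K → n ≤ j := fun j hj => Nat.find_min' hex hj
  set p : XS Y := ⟨y, n⟩ with hp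
  have hup : up p = {q : XS Y | q.fst = y ∧ n ≤ q.snd} := by
    ext q
    change p ∈ closure {q} ↔ _
    rw [mem_closure_iff']
    constructor
    · rintro ⟨h1, h2⟩; exact ⟨h1.symm, h2⟩
    · rintro ⟨h1, h2⟩; exact ⟨h1.symm, h2⟩
  have hupK : up p ⊆ K := by
    intro q hq
    exact hs p hnK q hq
  have hunion : (K \ {p}) ∪ up p = K := by
    apply Subset.antisymm
    · exact union_subset sdiff_subset hupK
    · intro q hq
      by_cases h : q = p
      · right; rw [h]; exact subset_closure rfl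
      · left; exact ⟨hq, h⟩
  have hc1 : IsCompact (K \ {p}) := by
    apply isCompact_of_proj
    have : (fun p : XS Y => p.fst) '' (K \ {p}) = (fun p : XS Y => p.fst) '' K := by
      apply Subset.antisymm (image_mono sdiff_subset)
      rintro _ ⟨q, hq, rfl⟩
      by_cases h : q = p
      · refine ⟨(⟨y, n + 1⟩ : XS Y), ⟨hupK ?_, ?_⟩, ?_⟩
        · rw [hup]; exact ⟨rfl, Nat.le_succ n⟩
        · intro h2
          have h3 : n + 1 = n := congrArg XS.snd (mem_singleton_iff.mp h2)
          omega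
        · rw [h]
      · exact ⟨q, ⟨hq, h⟩, rfl⟩
    rw [this]
    exact hc.image continuous_fst'
  have hs1 : Saturated (K \ {p}) := by
    rw [saturated_iff]
    rintro ⟨z, i⟩ ⟨hq, hqp⟩ ⟨z', j⟩ hqr
    rw [mem_closure_iff'] at hqr
    obtain ⟨h1, h2⟩ := hqr
    simp only at h1 h2
    subst h1
    refine ⟨hs _ hq _ ((mem_closure_iff' _ _).mpr ⟨rfl, h2⟩), ?_⟩
    intro h3
    have h4 : z = y := congrArg XS.fst (mem_singleton_iff.mp h3)
    have h5 : j = n := congrArg XS.snd (mem_singleton_iff.mp h3)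
    subst h4
    have h6 := hmin i hq
    apply hqp
    have h7 : i = n := by omega
    rw [mem_singleton_iff, hp, h7]
  have hc2 : IsCompact (up p) := by
    apply isCompact_of_proj
    have : (fun p : XS Y => p.fst) '' (up p) = {y} := by
      apply Subset.antisymm
      · rintro _ ⟨q, hq, rfl⟩
        rw [hup] at hq
        exact hq.1
      · rintro _ rfl
        exact ⟨p, subset_closure rfl, rfl⟩
    rw [this]
    exact isCompact_singleton
  have hs2 : Saturated (up p) := by
    rw [saturated_iff]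
    intro q hq r hqr
    rw [hup] at hq ⊢
    rw [mem_closure_iff'] at hqr
    exact ⟨hqr.1 ▸ hq.1, le_trans hq.2 hqr.2⟩
  rcases hirr _ _ hc1 hs1 hc2 hs2 hunion with h | h
  · exfalso
    have : p ∈ K \ {p} := h.symm ▸ hnK
    exact this.2 rfl
  · exact ⟨p, h.symm⟩

/-- The kernel operator. -/
def kmap (p : XS Y) : XS Y := ⟨p.fst, 0⟩

lemma kmap_continuous [T1Space Y] : Continuous (kmap : XS Y → XS Y) := by
  apply continuous_generateFrom_iff.mpr
  rintro U (⟨V, hV, rfl⟩ | ⟨y, m, rfl⟩)
  · exact isOpen_cyl hV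
  · have : kmap ⁻¹' (D y m)ᶜ = {p : XS Y | p.fst ∈ ({y}ᶜ : Set Y)} := by
      ext p
      simp only [mem_preimage, mem_compl_iff, D, kmap, mem_ofPred_eq, mem_singleton_iff]
      constructor
      · intro h h2; exact h ⟨h2, Nat.zero_le _⟩
      · intro h h2; exact h h2.1
    rw [this]
    exact isOpen_cyl isOpen_compl_singleton

/-- The image of `kmap` is homeomorphic to `Y`. -/
noncomputable def rangeHomeo [T1Space Y] : Set.range (kmap : XS Y → XS Y) ≃ₜ Y where
  toFun q := q.1.fst
  invFun y := ⟨(⟨y, 0⟩ : XS Y), ⟨(⟨y, 0⟩ : XS Y), rfl⟩⟩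
  left_inv := by
    rintro ⟨_, ⟨p, rfl⟩⟩
    rfl
  right_inv y := rfl
  continuous_toFun := continuous_fst'.comp continuous_subtype_val
  continuous_invFun := by
    apply Continuous.subtype_mk
    apply continuous_generateFrom_iff.mpr
    rintro U (⟨V, hV, rfl⟩ | ⟨y, m, rfl⟩)
    · exact hV
    · have : (fun z : Y => (⟨z, 0⟩ : XS Y)) ⁻¹' (D y m)ᶜ = ({y}ᶜ : Set Y) := by
        ext z
        simp only [mem_preimage, mem_compl_iff, D, mem_ofPred_eq, mem_singleton_iff]
        constructor
        · intro h h2; exact h ⟨h2, Nat.zero_le _⟩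
        · intro h h2; exact h h2.1
      rw [this]
      exact isOpen_compl_singleton

/-! ## Part B: a `T₁` space which is not co-sober -/

/-- The underlying set: an uncountable set. -/
def YY : Type := ℕ → Bool

instance : Nonempty YY := ⟨fun _ => false⟩

lemma mk_YY : Cardinal.mk YY = Cardinal.continuum := by
  unfold YY
  simp

lemma exists_phi : ∃ φ : YY × YY × ℕ × YY → YY, Function.Injective φ := by
  have h : Cardinal.mk (YY × YY × ℕ × YY) ≤ Cardinal.mk YY := by
    simp [Cardinal.mk_prod, mk_YY]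
  obtain ⟨e⟩ := h
  exact ⟨e, e.injective⟩

/-- An injection coding quadruples. -/
noncomputable def phi : YY × YY × ℕ × YY → YY := exists_phi.choose

lemma phi_inj : Function.Injective phi := exists_phi.choose_spec

/-- Indices of the special sets. -/
abbrev Idx : Type := (YY × YY × ℕ) ⊕ (YY × YY × YY)

/-- The special sets. -/
def S : Idx → Set YY
  | Sum.inl (p, q, n) => Set.range (fun a : YY => phi (p, q, n, a))
  | Sum.inr (p, q, a) => Set.range (fun n : ℕ => phi (p, q, n, a))

/-- The labels. -/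
def lab : Idx → YY
  | Sum.inl (p, _, _) => p
  | Sum.inr (_, q, _) => q

lemma S_inter {i j : Idx} (hij : i ≠ j) : (S i ∩ S j).Subsingleton := by
  rintro x ⟨hx1, hx2⟩ y ⟨hy1, hy2⟩
  rcases i with ⟨p, q, n⟩ | ⟨p, q, a⟩ <;> rcases j with ⟨p', q', n'⟩ | ⟨p', q', a'⟩
  · obtain ⟨b, rfl⟩ := hx1
    obtain ⟨c, hc⟩ := hx2
    have h := phi_inj hc
    simp only [Prod.mk.injEq] at h
    exact absurd (by rw [h.1, h.2.1, h.2.2.1]) hij
  · obtain ⟨b, rfl⟩ := hx1
    obtain ⟨c, hc⟩ := hx2
    obtain ⟨b', rfl⟩ := hy1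
    obtain ⟨c', hc'⟩ := hy2
    have h := phi_inj hc
    have h' := phi_inj hc'
    simp only [Prod.mk.injEq] at h h'
    rw [← h.2.2.2, ← h'.2.2.2]
  · obtain ⟨b, rfl⟩ := hx1
    obtain ⟨c, hc⟩ := hx2
    obtain ⟨b', rfl⟩ := hy1
    obtain ⟨c', hc'⟩ := hy2
    have h := phi_inj hc
    have h' := phi_inj hc'
    simp only [Prod.mk.injEq] at h h'
    rw [← h.2.2.1, ← h'.2.2.1]
  · obtain ⟨b, rfl⟩ := hx1
    obtain ⟨c, hc⟩ := hx2
    have h := phi_inj hc
    simp only [Prod.mk.injEq] at h
    exact absurd (by rw [h.1, h.2.1, h.2.2.2]) hij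

/-- The closed sets of the topology on `YY`. -/
def ClosedFam : Set (Set YY) :=
  {C | C = univ ∨ ((∃ (I : Finset Idx) (F : Finset YY), C ⊆ (⋃ i ∈ I, S i) ∪ ↑F) ∧
    ∀ i : Idx, (C ∩ S i).Infinite → lab i ∈ C)}

lemma closedFam_empty : ∅ ∈ ClosedFam := by
  right
  refine ⟨⟨∅, ∅, empty_subset _⟩, ?_⟩
  intro i hi
  simp at hi

lemma closedFam_label {C : Set YY} (hC : C ∈ ClosedFam) {i : Idx} (h : (C ∩ S i).Infinite) :
    lab i ∈ C := by
  rcases hC with rfl | ⟨_, h2⟩
  · exact mem_univ _
  · exact h2 i h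

lemma closedFam_sInter (A : Set (Set YY)) (hA : A ⊆ ClosedFam) : ⋂₀ A ∈ ClosedFam := by
  by_cases h : ∀ C ∈ A, C = univ
  · left
    rw [sInter_eq_univ]
    exact h
  · push Not at h
    obtain ⟨C, hCA, hC⟩ := h
    right
    obtain ⟨⟨I, F, hIF⟩, _⟩ := (hA hCA).resolve_left hC
    refine ⟨⟨I, F, (sInter_subset_of_mem hCA).trans hIF⟩, ?_⟩
    intro i hi C' hC'
    apply closedFam_label (hA hC')
    exact hi.mono (inter_subset_inter_left _ (sInter_subset_of_mem hC'))

lemma closedFam_union (A : Set YY) (hA : A ∈ ClosedFam) (B : Set YY) (hB : B ∈ ClosedFam) :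
    A ∪ B ∈ ClosedFam := by
  classical
  by_cases h1 : A = univ
  · left; rw [h1]; simp
  by_cases h2 : B = univ
  · left; rw [h2]; simp
  obtain ⟨⟨I, F, hIF⟩, hA'⟩ := hA.resolve_left h1
  obtain ⟨⟨J, G, hJG⟩, hB'⟩ := hB.resolve_left h2
  right
  refine ⟨⟨I ∪ J, F ∪ G, ?_⟩, ?_⟩
  · intro x hx
    rcases hx with hx | hx
    · rcases hIF hx with h | h
      · left
        simp only [mem_iUnion] at h ⊢
        obtain ⟨i, hi, hxi⟩ := h
        exact ⟨i, Finset.mem_union_left _ hi, hxi⟩
      · right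
        exact_mod_cast Finset.mem_union_left _ h
    · rcases hJG hx with h | h
      · left
        simp only [mem_iUnion] at h ⊢
        obtain ⟨i, hi, hxi⟩ := h
        exact ⟨i, Finset.mem_union_right _ hi, hxi⟩
      · right
        exact_mod_cast Finset.mem_union_right _ h
  · intro i hi
    rw [union_inter_distrib_right, infinite_union] at hi
    rcases hi with hi | hi
    · exact Or.inl (hA' i hi)
    · exact Or.inr (hB' i hi)

instance : TopologicalSpace YY :=
  TopologicalSpace.ofClosed ClosedFam closedFam_empty closedFam_sInter closedFam_union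

lemma isClosed_YY_iff (C : Set YY) : IsClosed C ↔ C ∈ ClosedFam := by
  rw [← isOpen_compl_iff]
  change Cᶜᶜ ∈ ClosedFam ↔ _
  rw [compl_compl]

instance : T1Space YY := by
  constructor
  intro x
  rw [isClosed_YY_iff]
  right
  refine ⟨⟨∅, {x}, by simp⟩, ?_⟩
  intro i hi
  exact absurd ((finite_singleton x).inter_of_left (S i)) hi

lemma isCompact_YY : IsCompact (univ : Set YY) := by
  classical
  apply isCompact_of_finite_subfamily_closed
  intro ι t ht h0
  rw [univ_inter] at h0
  by_contra hcon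
  push Not at hcon
  simp only [univ_inter] at hcon
  -- some member is proper
  obtain ⟨i0, hi0⟩ : ∃ i0, t i0 ≠ univ := by
    by_contra h
    push Not at h
    have : (⋂ i, t i) = univ := iInter_eq_univ.mpr h
    rw [this] at h0
    exact (univ_nonempty (α := YY)).ne_empty h0
  obtain ⟨⟨I, F, hIF⟩, _⟩ := ((isClosed_YY_iff _).mp (ht i0)).resolve_left hi0
  -- all finite intersections below `t i0` are infinite
  have hinf : ∀ u : Finset ι, (⋂ i ∈ insert i0 u, t i).Infinite := by
    intro u hfin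
    have hch : ∀ a : YY, ∃ i, a ∉ t i := by
      intro a
      by_contra h
      push Not at h
      have : a ∈ ⋂ i, t i := mem_iInter.mpr h
      rw [h0] at this
      exact this
    choose g hg using hch
    have h1 := hcon (insert i0 u ∪ hfin.toFinset.image g)
    obtain ⟨a, ha⟩ := h1
    have ha1 : a ∈ ⋂ i ∈ insert i0 u, t i := by
      simp only [mem_iInter] at ha ⊢
      intro i hi
      exact ha i (Finset.mem_union_left _ hi)
    have ha2 : a ∈ t (g a) := by
      simp only [mem_iInter] at ha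
      apply ha
      apply Finset.mem_union_right
      apply Finset.mem_image_of_mem
      exact hfin.mem_toFinset.mpr ha1
    exact hg a ha2
  -- one `S j` works for all
  obtain ⟨j, hj⟩ : ∃ j ∈ I, ∀ u : Finset ι, ((⋂ i ∈ insert i0 u, t i) ∩ S j).Infinite := by
    by_contra h
    push Not at h
    choose! u hu using h
    set u' : Finset ι := I.biUnion u with hu'
    have hsub : (⋂ i ∈ insert i0 u', t i) ⊆
        (⋃ j ∈ I, ((⋂ i ∈ insert i0 (u j), t i) ∩ S j)) ∪ ↑F := by
      intro a ha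
      have ha0 : a ∈ t i0 := by
        simp only [mem_iInter] at ha
        exact ha i0 (Finset.mem_insert_self _ _)
      rcases hIF ha0 with h1 | h1
      · left
        simp only [mem_iUnion] at h1 ⊢
        obtain ⟨j, hj, haj⟩ := h1
        refine ⟨j, hj, ?_, haj⟩
        simp only [mem_iInter] at ha ⊢
        intro i hi
        apply ha
        rcases Finset.mem_insert.mp hi with h2 | h2
        · exact Finset.mem_insert.mpr (Or.inl h2)
        · exact Finset.mem_insert.mpr (Or.inr (Finset.mem_biUnion.mpr ⟨j, hj, h2⟩))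
      · exact Or.inr h1
    apply hinf u'
    apply Set.Finite.subset _ hsub
    apply Set.Finite.union _ F.finite_toSet
    apply Set.Finite.biUnion I.finite_toSet
    intro j hj
    have := hu j hj
    exact this
  have : lab j ∈ ⋂ i, t i := by
    rw [mem_iInter]
    intro i
    apply closedFam_label ((isClosed_YY_iff _).mp (ht i)) (i := j)
    apply (hj.2 {i}).mono
    apply inter_subset_inter_left
    intro a ha
    simp only [mem_iInter] at ha
    exact ha i (by simp)
  rw [h0] at this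
  exact this

lemma label_mem_of_compact {K : Set YY} (hK : IsCompact K) {i : Idx}
    (hi : (K ∩ S i).Infinite) : lab i ∈ K := by
  classical
  by_contra hlab
  have hclosed : ∀ a : YY, IsClosed ((S i \ {a}) ∪ {lab i}) := by
    intro a
    rw [isClosed_YY_iff]
    right
    refine ⟨⟨{i}, {lab i}, ?_⟩, ?_⟩
    · intro x hx
      rcases hx with hx | hx
      · left
        simp only [mem_iUnion]
        exact ⟨i, Finset.mem_singleton_self i, hx.1⟩
      · right
        simpa using hx
    · intro j hj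
      by_cases hij : j = i
      · subst hij; exact Or.inr rfl
      · exfalso
        apply hj
        apply Set.Finite.subset (((S_inter (i := i) (j := j) (Ne.symm hij)).finite).union
          (finite_singleton (lab i)))
        rintro x ⟨hx1 | hx1, hx2⟩
        · exact Or.inl ⟨hx1.1, hx2⟩
        · exact Or.inr hx1
  have hempty : (K ∩ ⋂ a : YY, ((S i \ {a}) ∪ {lab i})) = ∅ := by
    rw [eq_empty_iff_forall_notMem]
    rintro x ⟨hxK, hx⟩
    rw [mem_iInter] at hx
    rcases hx x with h | h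
    · exact h.2 rfl
    · rw [mem_singleton_iff] at h
      exact hlab (h ▸ hxK)
  obtain ⟨u, hu⟩ := hK.elim_finite_subfamily_closed _ hclosed hempty
  have h1 : ((K ∩ S i) \ ↑u).Infinite := hi.sdiff u.finite_toSet
  obtain ⟨x, ⟨hxK, hxS⟩, hxu⟩ := h1.nonempty
  have h2 : x ∈ K ∩ ⋂ a ∈ u, ((S i \ {a}) ∪ {lab i}) := by
    refine ⟨hxK, ?_⟩
    simp only [mem_iInter]
    intro a ha
    left
    refine ⟨hxS, ?_⟩
    rintro rfl
    exact hxu (by exact_mod_cast ha)
  rw [hu] at h2
  exact h2

lemma YY_uncountable : ¬ (univ : Set YY).Countable := by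
  intro h
  rw [countable_univ_iff] at h
  have h1 := Cardinal.mk_le_aleph0_iff.mpr h
  rw [mk_YY] at h1
  exact absurd h1 (not_le.mpr Cardinal.aleph0_lt_continuum)

lemma YY_not_union {K₁ K₂ : Set YY} (h1 : IsCompact K₁) (h2 : IsCompact K₂)
    (hu : K₁ ∪ K₂ = univ) : K₁ = univ ∨ K₂ = univ := by
  by_contra hcon
  push Not at hcon
  obtain ⟨hn1, hn2⟩ := hcon
  obtain ⟨y₁, hy₁⟩ := (ne_univ_iff_exists_notMem _).mp hn1
  obtain ⟨y₂, hy₂⟩ := (ne_univ_iff_exists_notMem _).mp hn2
  have hfin1 : ∀ n : ℕ, (K₁ ∩ S (Sum.inl (y₁, y₂, n))).Finite := by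
    intro n
    by_contra h
    exact hy₁ (label_mem_of_compact h1 (i := Sum.inl (y₁, y₂, n)) h)
  have hfin2 : ∀ a : YY, (K₂ ∩ S (Sum.inr (y₁, y₂, a))).Finite := by
    intro a
    by_contra h
    exact hy₂ (label_mem_of_compact h2 (i := Sum.inr (y₁, y₂, a)) h)
  have hex : ∀ a : YY, ∃ n : ℕ, phi (y₁, y₂, n, a) ∈ K₁ := by
    intro a
    by_contra h
    push Not at h
    have hinj : Function.Injective (fun n : ℕ => phi (y₁, y₂, n, a)) := by
      intro n m hnm
      have := phi_inj hnm
      simp only [Prod.mk.injEq] at this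
      exact this.2.2.1
    apply (infinite_range_of_injective hinj) 
    apply (hfin2 a).subset
    rintro _ ⟨n, rfl⟩
    refine ⟨?_, n, rfl⟩
    have h3 : phi (y₁, y₂, n, a) ∈ K₁ ∪ K₂ := hu ▸ mem_univ _
    exact h3.resolve_left (h n)
  choose ν hν using hex
  have hinj : Function.Injective (fun a : YY => phi (y₁, y₂, ν a, a)) := by
    intro a b hab
    have := phi_inj hab
    simp only [Prod.mk.injEq] at this
    exact this.2.2.2
  have hcount : (⋃ n : ℕ, (K₁ ∩ S (Sum.inl (y₁, y₂, n)))).Countable :=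
    countable_iUnion fun n => (hfin1 n).countable
  apply YY_uncountable
  have hsub : (fun a : YY => phi (y₁, y₂, ν a, a)) '' univ ⊆
      ⋃ n : ℕ, (K₁ ∩ S (Sum.inl (y₁, y₂, n))) := by
    rintro _ ⟨a, _, rfl⟩
    exact mem_iUnion.mpr ⟨ν a, hν a, a, rfl⟩
  exact countable_of_injective_of_countable_image hinj.injOn (hcount.mono hsub)

lemma YY_not_coSober : ¬ CoSober YY := by
  intro h
  obtain ⟨x, hx⟩ := h univ ⟨univ_nonempty, isCompact_YY, saturated_of_t1 _,
    fun K₁ K₂ h1 _ h2 _ hu => YY_not_union h1 h2 hu⟩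
  apply YY_uncountable
  rw [hx]
  apply (countable_singleton x).mono
  intro y hy
  change x ∈ closure {y} at hy
  rw [closure_singleton, mem_singleton_iff] at hy
  exact hy.symm

/-- There are a co-sober `T₀` space `X` and a continuous kernel operator `k` (for the
specialization order) on `X` whose image, as a subspace, is not co-sober. -/
theorem result : ∃ (X : Type) (_ : TopologicalSpace X) (k : X → X),
    T0Space X ∧ CoSober X ∧ Continuous k ∧ (∀ x, k x ∈ closure {x}) ∧ (∀ x, k (k x) = k x) ∧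
      ¬ CoSober (Set.range k) := by
  refine ⟨XS YY, inferInstance, kmap, XS_t0, XS_coSober, kmap_continuous, ?_, ?_, ?_⟩
  · intro x
    rw [mem_closure_iff']
    exact ⟨rfl, Nat.zero_le _⟩
  · intro x
    rfl
  · intro h
    exact YY_not_coSober (coSober_of_homeomorph rangeHomeo h)

end Pool.Agent.Results.MP_1ae613_gt.KernelImage
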